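import Pool.Agent.W851.BE.Stm

set_option autoImplicit false

open Polynomial Topology Filter

namespace Pool.Agent.W230.BE

open Pool.Agent.W95.BK Pool.Agent.W851.BE

universe u

section

variable {K : Type u} [NontriviallyNormedField K] [IsUltrametricDist K]

lemma cl_inj {a b : K} (h : (cl a : BA K) = cl b) : a = b := by
  have h1 : (cl a : BA K) (X - C b) = (cl b : BA K) (X - C b) := by rw [h]
  change ‖(X - C b : K[X]).eval a‖ = ‖(X - C b : K[X]).eval b‖ at h1
  simp only [eval_sub, eval_X, eval_C, sub_self, norm_zero, norm_eq_zero] at h1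
  exact sub_eq_zero.1 h1

lemma p0 (f : RMap K) (c : K) :
    (taylor c (f.P - C c * f.Q)).coeff 0 = f.P.eval c - c * f.Q.eval c := by
  rw [taylor_coeff_zero]
  simp

lemma p1 (f : RMap K) (c : K) : (taylor c (f.P - C c * f.Q)).coeff 1 =
    (derivative f.P).eval c - c * (derivative f.Q).eval c := by
  rw [taylor_coeff_one]
  simp

lemma q0 (f : RMap K) (c : K) : (taylor c f.Q).coeff 0 = f.Q.eval c := taylor_coeff_zero ..

lemma sph (f : RMap K) (c : K) (h : f.P.eval c = c * f.Q.eval c) (hQ : f.Q.eval c ≠ 0) :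
    sphDeriv f ((cl c : BA K) : P1B K) =
      ‖(taylor c (f.P - C c * f.Q)).coeff 1‖ / ‖f.Q.eval c‖ := by
  have h1 : sphDeriv f ((cl c : BA K) : P1B K) =
      ‖(wr f).eval c‖ * max 1 ‖(X : K[X]).eval c‖ ^ 2 / max ‖f.P.eval c‖ ‖f.Q.eval c‖ ^ 2 := rfl
  have h2 : (wr f).eval c = f.Q.eval c * (taylor c (f.P - C c * f.Q)).coeff 1 := by
    rw [p1]
    unfold wr
    simp only [eval_sub, eval_mul]
    rw [h]
    ring
  have h3 : max ‖f.P.eval c‖ ‖f.Q.eval c‖ = ‖f.Q.eval c‖ * max 1 ‖c‖ := by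
    rw [h, norm_mul, mul_max_of_nonneg _ _ (norm_nonneg _), mul_one, max_comm, mul_comm]
  rw [h1, h2, h3, eval_X, norm_mul]
  have h4 : 0 < ‖f.Q.eval c‖ := norm_pos_iff.2 hQ
  have h5 : 0 < max 1 ‖c‖ := lt_max_of_lt_left one_pos
  generalize max 1 ‖c‖ = m at *
  generalize ‖f.Q.eval c‖ = q at *
  field_simp

lemma v0 (f : RMap K) (c : K) (t : ℝ) :
    vI f c t 0 = max ‖f.P.eval c - c * f.Q.eval c‖ (t * ‖f.Q.eval c‖) := by
  unfold vI
  rw [p0, q0, pow_zero, mul_one]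

end

theorem main1 (hA : S_ACT.{u}) (hN : S_NWI.{u}) : S_CR1.{u} := by
  intro K _ _ _ f c hc t ht
  obtain ⟨h1, h2⟩ := hc
  obtain ⟨-, hact, hact', -, -⟩ := hA K f
  have hQ : f.Q.eval c ≠ 0 := by
    intro h
    have := hact' c h
    rw [h1] at this
    exact OnePoint.coe_ne_infty _ this
  have h3 := hact c hQ
  rw [h1] at h3
  have h4 : c = f.P.eval c / f.Q.eval c := cl_inj (OnePoint.coe_injective h3)
  have hP : f.P.eval c = c * f.Q.eval c := by
    rw [eq_div_iff hQ] at h4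
    exact h4.symm
  rw [sph f c hP hQ, one_lt_div (norm_pos_iff.2 hQ)] at h2
  obtain ⟨⟨-, n1, -, -, -, n2, -, -⟩, -⟩ := hN K f c t ht
  by_contra hcon
  have h5 : Nw f c t = 0 := by omega
  rw [h5] at n1
  have h6 := n2 1
  rw [← n1, v0, hP, sub_self, norm_zero, max_eq_right (by positivity)] at h6
  have h7 : ‖(taylor c (f.P - C c * f.Q)).coeff 1‖ * t ≤ vI f c t 1 := by
    unfold vI
    rw [pow_one]
    exact mul_le_mul_of_nonneg_right (le_max_left _ _) ht.le
  nlinarith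

theorem main2 (hA : S_ACT.{u}) (hN : S_NWI.{u}) : S_CR2.{u} := by
  intro K _ _ _ f c k hk hNk
  obtain ⟨-, hact, -, -, -⟩ := hA K f
  -- the constant
  obtain ⟨A, hA0, hAp, hAq⟩ : ∃ A : ℝ, 0 < A ∧
      (∀ i ≤ f.d, ‖(taylor c (f.P - C c * f.Q)).coeff i‖ ≤ A) ∧
      (∀ i ≤ f.d, ‖(taylor c f.Q).coeff i‖ ≤ A) := by
    refine ⟨1 + ∑ i ∈ Finset.range (f.d + 1), (‖(taylor c (f.P - C c * f.Q)).coeff i‖ +
      ‖(taylor c f.Q).coeff i‖), by positivity, fun i hi => ?_, fun i hi => ?_⟩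
    · have := Finset.single_le_sum (f := fun i => ‖(taylor c (f.P - C c * f.Q)).coeff i‖ +
        ‖(taylor c f.Q).coeff i‖) (fun _ _ => by positivity)
        (Finset.mem_range.2 (show i < f.d + 1 by omega))
      have h0 := norm_nonneg ((taylor c f.Q).coeff i)
      linarith
    · have := Finset.single_le_sum (f := fun i => ‖(taylor c (f.P - C c * f.Q)).coeff i‖ +
        ‖(taylor c f.Q).coeff i‖) (fun _ _ => by positivity)
        (Finset.mem_range.2 (show i < f.d + 1 by omega))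
      have h0 := norm_nonneg ((taylor c (f.P - C c * f.Q)).coeff i)
      linarith
  -- bound of the terms
  have hv : ∀ t : ℝ, 0 < t → t ≤ 1 → ∀ i ≤ f.d, ∀ j ≤ i, vI f c t i ≤ A * t ^ j := by
    intro t ht ht1 i hi j hj
    unfold vI
    have h1 : max ‖(taylor c (f.P - C c * f.Q)).coeff i‖ (t * ‖(taylor c f.Q).coeff i‖) ≤ A := by
      refine max_le (hAp i hi) ?_
      calc t * ‖(taylor c f.Q).coeff i‖ ≤ 1 * A :=
            mul_le_mul ht1 (hAq i hi) (norm_nonneg _) zero_le_one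
        _ = A := one_mul A
    exact mul_le_mul h1 (pow_le_pow_of_le_one ht.le ht1 hj) (pow_nonneg ht.le _) hA0.le
  have hn := fun t ht => hN K f c t ht
  -- index zero does not attain
  have hlt : ∀ t : ℝ, 0 < t → vI f c t 0 < Mx f c t := by
    intro t ht
    obtain ⟨⟨-, -, -, -, -, -, n3, -⟩, -⟩ := hn t ht
    exact n3 0 (by have := hNk t ht; omega)
  have hle : ∀ t : ℝ, 0 < t → Nw f c t ≤ f.d := by
    intro t ht
    obtain ⟨⟨-, -, -, n4, n5, -, -, -⟩, -⟩ := hn t ht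
    exact n4.trans n5
  have heq : ∀ t : ℝ, 0 < t → vI f c t (Nw f c t) = Mx f c t := by
    intro t ht
    obtain ⟨⟨-, n1, -⟩, -⟩ := hn t ht
    exact n1
  -- the point is fixed
  have hP : f.P.eval c = c * f.Q.eval c := by
    by_contra hcon
    have hpos : 0 < ‖f.P.eval c - c * f.Q.eval c‖ := norm_pos_iff.2 (sub_ne_zero.2 hcon)
    obtain ⟨t, ht, ht1, hts⟩ : ∃ t : ℝ, 0 < t ∧ t ≤ 1 ∧ A * t ≤ ‖f.P.eval c - c * f.Q.eval c‖ := by
      refine ⟨min 1 (‖f.P.eval c - c * f.Q.eval c‖ / A), lt_min one_pos (by positivity),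
        min_le_left _ _, ?_⟩
      calc A * min 1 (‖f.P.eval c - c * f.Q.eval c‖ / A) ≤
          A * (‖f.P.eval c - c * f.Q.eval c‖ / A) :=
            mul_le_mul_of_nonneg_left (min_le_right _ _) hA0.le
        _ = _ := by field_simp
    have h1 := hlt t ht
    have h2 := hv t ht ht1 (Nw f c t) (hle t ht) 1 (hk.trans (hNk t ht))
    rw [heq t ht, pow_one] at h2
    have h3 : ‖f.P.eval c - c * f.Q.eval c‖ ≤ vI f c t 0 := by rw [v0]; exact le_max_left _ _
    linarith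
  have hQ : f.Q.eval c ≠ 0 := by
    intro h
    rw [h, mul_zero] at hP
    obtain ⟨a, b, hab⟩ := f.cop
    have := congrArg (eval c) hab
    simp [hP, h] at this
  have hQp : 0 < ‖f.Q.eval c‖ := norm_pos_iff.2 hQ
  have hv0 : ∀ t : ℝ, 0 < t → vI f c t 0 = t * ‖f.Q.eval c‖ := by
    intro t ht
    rw [v0, hP, sub_self, norm_zero, max_eq_right (by positivity)]
  have hv1 : ∀ t : ℝ, vI f c t 1 = max ‖(taylor c (f.P - C c * f.Q)).coeff 1‖
      (t * ‖(taylor c f.Q).coeff 1‖) * t := by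
    intro t
    unfold vI
    rw [pow_one]
  have hd : 1 ≤ f.d := f.pos
  -- small radii
  have hsmall : ∀ δ : ℝ, 0 < δ → ∃ t : ℝ, 0 < t ∧ t ≤ 1 ∧ A * t < δ := by
    intro δ hδ
    refine ⟨min 1 (δ / (2 * A)), lt_min one_pos (by positivity), min_le_left _ _, ?_⟩
    calc A * min 1 (δ / (2 * A)) ≤ A * (δ / (2 * A)) :=
          mul_le_mul_of_nonneg_left (min_le_right _ _) hA0.le
      _ = δ / 2 := by field_simp
      _ < δ := by linarith
  have hrep : ‖f.Q.eval c‖ < ‖(taylor c (f.P - C c * f.Q)).coeff 1‖ := by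
    by_contra hcon
    push Not at hcon
    obtain ⟨t, ht, ht1, hts⟩ := hsmall _ hQp
    have h1 := hlt t ht
    have h2 : vI f c t (Nw f c t) ≤ t * ‖f.Q.eval c‖ := by
      have hNp := hk.trans (hNk t ht)
      rcases Nat.lt_or_ge (Nw f c t) 2 with h | h
      · have h3 : Nw f c t = 1 := by omega
        rw [h3, hv1, mul_comm]
        refine mul_le_mul_of_nonneg_left (max_le hcon ?_) ht.le
        have h4 := hAq 1 hd
        have h5 : t * ‖(taylor c f.Q).coeff 1‖ ≤ t * A := mul_le_mul_of_nonneg_left h4 ht.le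
        linarith
      · have h3 := hv t ht ht1 (Nw f c t) (hle t ht) 2 h
        have h4 : A * t ^ 2 ≤ t * ‖f.Q.eval c‖ := by nlinarith
        exact h3.trans h4
    rw [heq t ht] at h2
    rw [hv0 t ht] at h1
    linarith
  refine ⟨⟨?_, ?_⟩, ?_⟩
  · rw [hact c hQ, hP, mul_div_cancel_right₀ _ hQ]
  · rw [sph f c hP hQ, one_lt_div hQp]
    exact hrep
  · obtain ⟨t, ht, ht1, hts⟩ := hsmall _ (hQp.trans hrep)
    have hNp := hNk t ht
    by_contra hk1
    have h2 : 2 ≤ Nw f c t := by omega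
    have h3 := hv t ht ht1 (Nw f c t) (hle t ht) 2 h2
    rw [heq t ht] at h3
    obtain ⟨⟨-, -, -, -, -, n2, -, -⟩, -⟩ := hn t ht
    have h4 := n2 1
    have h5 : ‖(taylor c (f.P - C c * f.Q)).coeff 1‖ * t ≤ vI f c t 1 := by
      rw [hv1]
      exact mul_le_mul_of_nonneg_right (le_max_left _ _) ht.le
    nlinarith

end Pool.Agent.W230.BE
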